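import Pool.Agent.Work.MP_9999b5_ms.Defs

set_option autoImplicit false

namespace Pool.Agent.Work.MaxSums.helper46SumLin

open Finset

theorem step {ι : Type} [DecidableEq ι] (g : ι → ℝ) (a : ι) (A : Finset ι) (ha : a ∉ A)
    (j : ℕ) :
    ∑ S ∈ (insert a A).powersetCard (j + 1), ∑ i ∈ S, g i
      = ∑ S ∈ A.powersetCard (j + 1), ∑ i ∈ S, g i
        + ((A.card.choose j : ℝ) * g a + ∑ S ∈ A.powersetCard j, ∑ i ∈ S, g i) := by
  rw [Finset.powersetCard_succ_insert ha, Finset.sum_union]
  · congr 1
    rw [Finset.sum_image]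
    · have : ∀ S ∈ A.powersetCard j, ∑ i ∈ insert a S, g i = g a + ∑ i ∈ S, g i := by
        intro S hS
        rw [Finset.sum_insert]
        intro h
        exact ha ((Finset.mem_powersetCard.1 hS).1 h)
      rw [Finset.sum_congr rfl this, Finset.sum_add_distrib, Finset.sum_const,
        Finset.card_powersetCard, nsmul_eq_mul]
    · intro S hS T hT hST
      have h1 : a ∉ S := fun h => ha ((Finset.mem_powersetCard.1 hS).1 h)
      have h2 : a ∉ T := fun h => ha ((Finset.mem_powersetCard.1 hT).1 h)
      rw [← Finset.erase_insert h1, ← Finset.erase_insert h2]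
      rw [hST]
  · rw [Finset.disjoint_left]
    intro S hS hS'
    obtain ⟨T, _, rfl⟩ := Finset.mem_image.1 hS'
    exact ha ((Finset.mem_powersetCard.1 hS).1 (Finset.mem_insert_self a T))

theorem main {ι : Type} [DecidableEq ι] (g : ι → ℝ) (A : Finset ι) :
    ∀ j : ℕ, ∑ S ∈ A.powersetCard (j + 1), ∑ i ∈ S, g i
      = ((A.card - 1).choose j : ℝ) * ∑ i ∈ A, g i := by
  induction A using Finset.induction_on with
  | empty =>
    intro j
    have : (∅ : Finset ι).powersetCard (j + 1) = ∅ := by
      apply Finset.powersetCard_eq_empty.2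
      simp
    rw [this]
    simp
  | insert a A ha ih =>
    intro j
    rw [step g a A ha j, ih j, Finset.sum_insert ha, Finset.card_insert_of_notMem ha]
    simp only [Nat.add_sub_cancel]
    rcases Nat.eq_zero_or_pos A.card with h0 | h0
    · have hA : A = ∅ := Finset.card_eq_zero.1 h0
      subst hA
      rcases j with _ | j
      · simp
      · rw [ih j]; simp
    · obtain ⟨n, hn⟩ : ∃ n, A.card = n + 1 := ⟨A.card - 1, by omega⟩
      rcases j with _ | j
      · simp
        ring
      · rw [ih j, hn]
        have : ((n + 1).choose (j + 1) : ℝ) = (n.choose j : ℝ) + (n.choose (j + 1) : ℝ) := by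
          rw [Nat.choose_succ_succ]; push_cast; ring
        simp only [Nat.add_sub_cancel]
        rw [this]
        ring

theorem holds : SumLin := by
  intro ι _ A j g
  rcases j with _ | j
  · simp
  · rw [main g A j]
    rcases Nat.eq_zero_or_pos A.card with h0 | h0
    · have hA : A = ∅ := Finset.card_eq_zero.1 h0
      subst hA
      simp
    · obtain ⟨n, hn⟩ : ∃ n, A.card = n + 1 := ⟨A.card - 1, by omega⟩
      rw [hn]
      simp only [Nat.add_sub_cancel]
      have h := Nat.add_one_mul_choose_eq n j
      have h' : ((n : ℝ) + 1) * (n.choose j : ℝ) = ((n + 1).choose (j + 1) : ℝ) * ((j : ℝ) + 1) := by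
        exact_mod_cast h
      push_cast
      rw [← mul_assoc, h']
      ring

end Pool.Agent.Work.MaxSums.helper46SumLin
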