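import Pool.Agent.Work.MP_9999b5_ms.Defs

set_option autoImplicit false

namespace Pool.Agent.Work.MaxSums.helper46Exchange

open Finset

theorem inv {ι : Type} [DecidableEq ι] (B S : Finset ι) (k : ℕ) (s w : ι)
    (hS : S ∈ B.powersetCard k) (hs : s ∈ S) (hw : w ∈ B \ S) :
    insert w (S.erase s) ∈ B.powersetCard k ∧ w ∈ insert w (S.erase s) ∧
      s ∈ B \ insert w (S.erase s) ∧ insert s ((insert w (S.erase s)).erase w) = S := by
  obtain ⟨h1, h2⟩ := Finset.mem_powersetCard.1 hS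
  obtain ⟨h3, h4⟩ := Finset.mem_sdiff.1 hw
  have h5 : w ∉ S.erase s := fun h => h4 (Finset.mem_of_mem_erase h)
  have h6 : s ≠ w := fun h => h4 (h ▸ hs)
  refine ⟨Finset.mem_powersetCard.2 ⟨?_, ?_⟩, Finset.mem_insert_self _ _, ?_, ?_⟩
  · intro i hi
    rcases Finset.mem_insert.1 hi with rfl | hi
    · exact h3
    · exact h1 (Finset.mem_of_mem_erase hi)
  · rw [Finset.card_insert_of_notMem h5, Finset.card_erase_of_mem hs, h2]
    have : 0 < S.card := Finset.card_pos.2 ⟨s, hs⟩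
    omega
  · refine Finset.mem_sdiff.2 ⟨h1 hs, ?_⟩
    intro h
    rcases Finset.mem_insert.1 h with h | h
    · exact h6 h
    · exact (Finset.notMem_erase s S) h
  · rw [Finset.erase_insert h5, Finset.insert_erase hs]

theorem holds : Exchange := by
  intro ι _ B k Φ
  rw [Finset.sum_congr rfl (fun S _ => Finset.sum_sigma' S (fun _ => B \ S) (fun s w => Φ S s w)),
    Finset.sum_congr rfl (fun S _ => Finset.sum_sigma' S (fun _ => B \ S)
      (fun s w => Φ (insert w (S.erase s)) w s)),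
    Finset.sum_sigma', Finset.sum_sigma']
  refine Finset.sum_nbij'
    (fun p => (⟨insert p.2.2 (p.1.erase p.2.1), ⟨p.2.2, p.2.1⟩⟩ :
      (_ : Finset ι) × ((_ : ι) × ι)))
    (fun p => (⟨insert p.2.2 (p.1.erase p.2.1), ⟨p.2.2, p.2.1⟩⟩ :
      (_ : Finset ι) × ((_ : ι) × ι))) ?_ ?_ ?_ ?_ ?_
  · rintro ⟨S, s, w⟩ h
    simp only [Finset.mem_sigma] at h ⊢
    obtain ⟨a, b, c, _⟩ := inv B S k s w h.1 h.2.1 h.2.2
    exact ⟨a, b, c⟩
  · rintro ⟨S, s, w⟩ h
    simp only [Finset.mem_sigma] at h ⊢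
    obtain ⟨a, b, c, _⟩ := inv B S k s w h.1 h.2.1 h.2.2
    exact ⟨a, b, c⟩
  · rintro ⟨S, s, w⟩ h
    simp only [Finset.mem_sigma] at h
    obtain ⟨_, _, _, d⟩ := inv B S k s w h.1 h.2.1 h.2.2
    simp only [d]
  · rintro ⟨S, s, w⟩ h
    simp only [Finset.mem_sigma] at h
    obtain ⟨_, _, _, d⟩ := inv B S k s w h.1 h.2.1 h.2.2
    simp only [d]
  · rintro ⟨S, s, w⟩ h
    simp only [Finset.mem_sigma] at h
    obtain ⟨_, _, _, d⟩ := inv B S k s w h.1 h.2.1 h.2.2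
    simp only [d]

end Pool.Agent.Work.MaxSums.helper46Exchange
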