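import Pool.Agent.Work.MP_9999b5_ms.Defs

set_option autoImplicit false

namespace Pool.Agent.Work.MaxSums.helper46Outliers

open Finset

theorem holds : Outliers := by
  intro ι _ R x o ho hsum
  obtain ⟨O, hO, hmin⟩ := Finset.exists_min_image (R.powersetCard o) (fun O => ∑ i ∈ O, x i)
    (Finset.powersetCard_nonempty.2 ho.le)
  obtain ⟨hOR, hOc⟩ := Finset.mem_powersetCard.1 hO
  have hex : ∀ a ∈ O, ∀ w ∈ R \ O, x a ≤ x w := by
    intro a ha w hw
    obtain ⟨h3, h4⟩ := Finset.mem_sdiff.1 hw
    have h5 : w ∉ O.erase a := fun h => h4 (Finset.mem_of_mem_erase h)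
    have hmem : insert w (O.erase a) ∈ R.powersetCard o := by
      refine Finset.mem_powersetCard.2 ⟨?_, ?_⟩
      · intro i hi
        rcases Finset.mem_insert.1 hi with rfl | hi
        · exact h3
        · exact hOR (Finset.mem_of_mem_erase hi)
      · rw [Finset.card_insert_of_notMem h5, Finset.card_erase_of_mem ha, hOc]
        have : 0 < O.card := Finset.card_pos.2 ⟨a, ha⟩
        omega
    have h6 := hmin _ hmem
    rw [Finset.sum_insert h5] at h6
    have h7 := Finset.add_sum_erase O x ha
    linarith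
  have hne : (R \ O).Nonempty := by
    rw [← Finset.card_pos, Finset.card_sdiff_of_subset hOR]
    omega
  obtain ⟨w0, hw0, hw0min⟩ := Finset.exists_min_image (R \ O) x hne
  have hsplit : ∑ i ∈ R \ O, x i + ∑ i ∈ O, x i = ∑ i ∈ R, x i := Finset.sum_sdiff hOR
  rcases le_or_gt 0 (x w0) with h0 | h0
  · refine ⟨O, 0, hOR, hOc, le_refl _, ?_, hex, ?_⟩
    · intro i hi
      have := hw0min i hi
      linarith
    · have : 0 ≤ ∑ i ∈ R \ O, x i := Finset.sum_nonneg (fun i hi => h0.trans (hw0min i hi))
      linarith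
  · refine ⟨O, -x w0, hOR, hOc, by linarith, ?_, hex, ?_⟩
    · intro i hi
      have := hw0min i hi
      linarith
    · have h8 : ∑ i ∈ O, x i ≤ O.card • (x w0) :=
        Finset.sum_le_card_nsmul O x (x w0) (fun a ha => hex a ha w0 hw0)
      rw [hOc, nsmul_eq_mul] at h8
      linarith

end Pool.Agent.Work.MaxSums.helper46Outliers
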