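import Pool.Agent.Work.MP_9999b5_ms.Defs

set_option autoImplicit false

namespace Pool.Agent.Work.MaxSums.helper46PZ

open Finset

theorem holds : PZ := by
  intro α s Y h
  have h1 : ∑ a ∈ s, Y a ≤ ∑ a ∈ s.filter (fun a => 0 < Y a), Y a := by
    rw [← Finset.sum_filter_add_sum_filter_not s (fun a => 0 < Y a)]
    have : ∑ a ∈ s.filter (fun a => ¬ 0 < Y a), Y a ≤ 0 :=
      Finset.sum_nonpos (fun a ha => not_lt.1 (Finset.mem_filter.1 ha).2)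
    linarith
  have h2 : (∑ a ∈ s.filter (fun a => 0 < Y a), Y a) ^ 2
      ≤ ((s.filter (fun a => 0 < Y a)).card : ℝ) * ∑ a ∈ s.filter (fun a => 0 < Y a), Y a ^ 2 :=
    sq_sum_le_card_mul_sum_sq
  have h3 : ∑ a ∈ s.filter (fun a => 0 < Y a), Y a ^ 2 ≤ ∑ a ∈ s, Y a ^ 2 :=
    Finset.sum_le_sum_of_subset_of_nonneg (filter_subset _ _) (fun _ _ _ => sq_nonneg _)
  calc (∑ a ∈ s, Y a) ^ 2 ≤ (∑ a ∈ s.filter (fun a => 0 < Y a), Y a) ^ 2 :=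
        pow_le_pow_left₀ h h1 2
    _ ≤ ((s.filter (fun a => 0 < Y a)).card : ℝ) * ∑ a ∈ s.filter (fun a => 0 < Y a), Y a ^ 2 := h2
    _ ≤ ((s.filter (fun a => 0 < Y a)).card : ℝ) * ∑ a ∈ s, Y a ^ 2 :=
        mul_le_mul_of_nonneg_left h3 (Nat.cast_nonneg _)

end Pool.Agent.Work.MaxSums.helper46PZ
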